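import Pool.Agent.U467.CN.Stm

/-!
# Project CN, package SEL: Borel selection
-/

set_option autoImplicit false

open Set Topology Filter MeasureTheory

namespace Pool.Agent.U423.CN

open Pool.Agent.U467.CN

theorem rs_of {w : ℕ → ℤ} : ∀ l : List ℤ, (∀ m < l.length, w m = l.reverse.getD m 0) →
    rs w l.length = l
  | [], _ => rfl
  | a :: l, h => by
    have h1 : rs w l.length = l := by
      refine rs_of l fun m hm => ?_
      rw [h m (by simp; omega), List.reverse_cons]
      rw [List.getD_append _ _ _ _ (by simpa using hm)]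
    have h2 : w l.length = a := by
      rw [h l.length (by simp), List.reverse_cons]
      rw [List.getD_append_right _ _ _ _ (by simp)]
      simp
    show PiNat.res w (l.length + 1) = a :: l
    rw [PiNat.res_succ, h2]
    congr 1

theorem getD_suffix {t t' : List ℤ} (h : t <:+ t') {m : ℕ} (hm : m < t.length) :
    t'.reverse.getD m 0 = t.reverse.getD m 0 := by
  obtain ⟨s, rfl⟩ := h
  rw [List.reverse_append, List.getD_append _ _ _ _ (by simpa using hm)]

open Classical in
/-- the first `i` with `p i` -/
noncomputable def nf (p : ℕ → Prop) (h : ∃ i, p i) : ℕ := Nat.find h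

open Classical in
theorem nf_spec (p : ℕ → Prop) (h : ∃ i, p i) : p (nf p h) := Nat.find_spec h

open Classical in
theorem measurable_nf {p : Z → ℕ → Prop} (hp : ∀ z, ∃ i, p z i)
    (hm : ∀ k, MeasurableSet {z | p z k}) : Measurable fun z => nf (p z) (hp z) :=
  measurable_find hp hm

theorem t_SEL : S_SEL := by
  intro O G hO hG hd
  classical
  let _ : MeasurableSpace (List ℤ) := ⊤
  set e : ℕ → List ℤ := fun i => Denumerable.ofNat (List ℤ) i with he
  have hes : ∀ t, ∃ i, e i = t := fun t => ⟨Encodable.encode t, Denumerable.ofNat_encode t⟩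
  have hem : Measurable e := measurable_from_nat
  -- the start
  have h0 : ∀ z, ∃ i, z ∈ O (e i) ∨ ((∀ t, z ∉ O t) ∧ i = 0) := by
    intro z
    by_cases h : ∃ t, z ∈ O t
    · obtain ⟨t, ht⟩ := h
      obtain ⟨i, rfl⟩ := hes t
      exact ⟨i, Or.inl ht⟩
    · push Not at h
      exact ⟨0, Or.inr ⟨h, rfl⟩⟩
  -- the step
  have hst : ∀ (n : ℕ) (t : List ℤ) (z : Z), ∃ i, t <:+ e i ∧ n < (e i).length ∧ z ∈ G n (e i) := by
    intro n t z
    obtain ⟨t', h1, h2⟩ := hd n z (List.replicate (n + 1) 0 ++ t)
    obtain ⟨i, rfl⟩ := hes t'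
    refine ⟨i, (List.suffix_append _ _).trans h1, ?_, h2⟩
    have := h1.length_le
    simp at this
    omega
  let L : ℕ → Z → List ℤ := fun n => Nat.rec (fun z => e (nf _ (h0 z)))
    (fun n l z => e (nf _ (hst n (l z) z))) n
  have hLs : ∀ (n : ℕ) (z : Z), L (n + 1) z = e (nf _ (hst n (L n z) z)) := fun n z => rfl
  have hLm : ∀ n, Measurable (L n) := by
    intro n
    induction n with
    | zero =>
      have h1 : Measurable fun z : Z => nf _ (h0 z) := by
        refine measurable_nf h0 fun k => ?_
        have h2 : {z : Z | z ∈ O (e k) ∨ ((∀ t, z ∉ O t) ∧ k = 0)} =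
            O (e k) ∪ ((⋂ t, (O t)ᶜ) ∩ {z | k = 0}) := by
          ext z
          simp
        rw [h2]
        exact (hO _).union ((MeasurableSet.iInter fun t => (hO t).compl).inter
          (MeasurableSet.const _))
      exact hem.comp h1
    | succ n ih =>
      have h1 : Measurable fun z : Z => nf _ (hst n (L n z) z) := by
        refine measurable_nf (fun z => hst n (L n z) z) fun k => ?_
        have h2 : {z : Z | L n z <:+ e k ∧ n < (e k).length ∧ z ∈ G n (e k)} =
            (L n) ⁻¹' {t | t <:+ e k} ∩ ({z | n < (e k).length} ∩ G n (e k)) := by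
          ext z
          simp
        rw [h2]
        exact (ih trivial).inter ((MeasurableSet.const _).inter (hG _ _))
      exact hem.comp h1
  have hsuf : ∀ z n, L n z <:+ L (n + 1) z := by
    intro z n
    rw [hLs]
    exact (nf_spec _ (hst n (L n z) z)).1
  have hlen : ∀ z n, n < (L (n + 1) z).length := by
    intro z n
    rw [hLs]
    exact (nf_spec _ (hst n (L n z) z)).2.1
  have hin : ∀ z n, z ∈ G n (L (n + 1) z) := by
    intro z n
    rw [hLs]
    exact (nf_spec _ (hst n (L n z) z)).2.2
  have hmono : ∀ z i j, i ≤ j → L i z <:+ L j z := by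
    intro z i j hij
    induction hij with
    | refl => exact List.suffix_rfl
    | step _ ih => exact ih.trans (hsuf z _)
  let u : Z → Z := fun z m => (L (m + 1) z).reverse.getD m 0
  have hrs : ∀ z n, rs (u z) (L n z).length = L n z := by
    intro z n
    refine rs_of _ fun m hm => ?_
    show (L (m + 1) z).reverse.getD m 0 = _
    rcases le_total n (m + 1) with h | h
    · exact getD_suffix (hmono z _ _ h) hm
    · exact (getD_suffix (hmono z _ _ h) (hlen z m)).symm
  refine ⟨u, ?_, fun z hz => ⟨⟨(L 0 z).length, ?_⟩, fun n => ⟨(L (n + 1) z).length, ?_⟩⟩⟩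
  · refine measurable_pi_iff.2 fun m => ?_
    have h1 : Measurable fun l : List ℤ => l.reverse.getD m 0 := measurable_from_top
    exact h1.comp (hLm (m + 1))
  · rw [hrs]
    rcases nf_spec _ (h0 z) with h | h
    · exact h
    · obtain ⟨t, ht⟩ := hz
      exact absurd ht (h.1 t)
  · have h := hrs z (n + 1)
    have h2 := hin z n
    rw [← h] at h2
    exact h2

end Pool.Agent.U423.CN
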